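import Pool.Agent.H.MP_451483_gt.D

set_option autoImplicit false
open Cardinal

namespace Pool.Agent.Results.MP_451483_gt.PathConn

/-- `X` is closed in every Hausdorff group topology on `G`. -/
def UncondClosed {G : Type} [AddCommGroup G] (X : Set G) : Prop :=
  ∀ τ : TopologicalSpace G, @IsTopologicalAddGroup G τ _ → @T2Space G τ → @IsClosed G τ X

/-- Every proper unconditionally closed subgroup has index at least the continuum. -/
def IsMGroup (G : Type) [AddCommGroup G] : Prop :=
  ∀ H : AddSubgroup G, H ≠ ⊤ → UncondClosed (H : Set G) → continuum ≤ Cardinal.mk (G ⧸ H)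

theorem result (G : Type) [AddCommGroup G] (hG : IsMGroup G) :
    ∃ τ : TopologicalSpace G,
      @IsTopologicalAddGroup G τ _ ∧ @T2Space G τ ∧ @PathConnectedSpace G τ := by
  obtain ⟨T, _, _, t, b, M, h1, h2, h3, h4⟩ := Pool.Agent.H.MP_451483_gt.design (G := G) fun k => by
    refine or_iff_not_imp_left.2 fun h => ?_
    have := hG (zsmulAddGroupHom (α := G) k).ker (fun e => h fun g =>
      (e.ge (AddSubgroup.mem_top g) : g ∈ (zsmulAddGroupHom (α := G) k).ker))
      fun τ _ _ => isClosed_eq (continuous_zsmul k) continuous_const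
    exact this.trans_eq (mk_congr (QuotientAddGroup.quotientKerEquivRange _).toEquiv)
  exact Pool.Agent.H.MP_451483_gt.top h1 h2 h3 h4

end Pool.Agent.Results.MP_451483_gt.PathConn
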